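import Pool.Agent.Helper18.XE.Defs
import Pool.Agent.Helper28.Z4.Div

/-! `tab4` of XE-2: the table of wedge products of the `F_ab`, type (X4). -/

set_option autoImplicit false

namespace Pool.Agent.Helper28.XE

open MvPolynomial
open scoped BigOperators
open Pool.Agent.Helper71.FC
open Pool.Agent.Helper71.FL (w12 pf ct Dec Closed dd)
open Pool.Agent.Helper18.LB
open Pool.Agent.Helper18.XE
open Pool.Agent.Helper28.Z4 (exists_gam cancel_th exists_ne)

/-- wedge products with a linear combination of three forms -/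
theorem w11_comb (f g h : Pn 5) (α β γ δ : F1 5) (i j : Fin 5) :
    w11 (fun a => f * α a + g * β a + h * γ a) δ i j =
      f * w11 α δ i j + g * w11 β δ i j + h * w11 γ δ i j := by
  unfold w11
  ring

theorem tab4 {θ : F2 5} {σ : F1 5} {x : Fin 4 → Pn 5} {F : Fin 4 → Fin 4 → F1 5}
    (h : XD θ false σ x F) : ∃ n k : Pn 5, n.IsHomogeneous 1 ∧ k.IsHomogeneous 1 ∧
      (∀ i, F 0 1 i = n * σ i) ∧ (∀ i, F 1 2 i = F 0 3 i + k * σ i) ∧
      (∀ I i j, w11 ((![F 0 2, F 0 3, F 1 3, F 2 3] : Fin 4 → F1 5) I) σ i j =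
        sg4 x I.castSucc * θ i j) ∧
      (∀ I J i j, w11 ((![F 0 2, F 0 3, F 1 3, F 2 3] : Fin 4 → F1 5) I)
        ((![F 0 2, F 0 3, F 1 3, F 2 3] : Fin 4 → F1 5) J) i j =
          k4 x n k I.castSucc J.castSucc * θ i j) ∧
      (∀ c0 c1 : ℂ, n ≠ C c0 * x 0 + C c1 * x 1) := by
  have hW : ∀ a b i j, w11 (F a b) σ i j = (x a * (![0, 0, x 0, x 1] : Fin 4 → Pn 5) b -
      x b * (![0, 0, x 0, x 1] : Fin 4 → Pn 5) a) * θ i j := by
    intro a b i j
    have := h.wedge a b i j
    simpa [pat] using this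
  have h01 : ∀ i j, w11 (F 0 1) σ i j = 0 := by
    intro i j
    rw [hW]
    simp
  have h02 : ∀ i j, w11 (F 0 2) σ i j = x 0 ^ 2 * θ i j := by
    intro i j
    rw [hW]
    simp only [Matrix.cons_val_zero, Matrix.cons_val_one, Matrix.cons_val]
    ring
  have h03 : ∀ i j, w11 (F 0 3) σ i j = x 0 * x 1 * θ i j := by
    intro i j
    rw [hW]
    simp only [Matrix.cons_val_zero, Matrix.cons_val_one, Matrix.cons_val]
    ring
  have h12 : ∀ i j, w11 (F 1 2) σ i j = x 0 * x 1 * θ i j := by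
    intro i j
    rw [hW]
    simp only [Matrix.cons_val_zero, Matrix.cons_val_one, Matrix.cons_val]
    ring
  have h13 : ∀ i j, w11 (F 1 3) σ i j = x 1 ^ 2 * θ i j := by
    intro i j
    rw [hW]
    simp only [Matrix.cons_val_zero, Matrix.cons_val_one, Matrix.cons_val]
    ring
  have h23 : ∀ i j, w11 (F 2 3) σ i j = (x 1 * x 2 - x 0 * x 3) * θ i j := by
    intro i j
    rw [hW]
    simp only [Matrix.cons_val_zero, Matrix.cons_val_one, Matrix.cons_val]
    ring
  obtain ⟨n, hn, hn1⟩ := sig_of_w (k := 1) h.e1 h.hσ h.hσ0 (fun i => (h.hF 0 1).1 i) h01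
  obtain ⟨k, hk, hk1⟩ := sig_of_w (k := 1) (ξ := fun i => F 1 2 i - F 0 3 i) h.e1 h.hσ h.hσ0
    (fun i => ((h.hF 1 2).1 i).sub ((h.hF 0 3).1 i)) (by
      intro i j
      have e1 := h12 i j
      have e2 := h03 i j
      unfold w11 at *
      linear_combination e1 - e2)
  have hx0 : ∀ a, x a ≠ 0 := fun a => h.hxi.ne_zero a
  have hp : ∀ a, Prime (x a) := fun a => prime_of_hom_one (h.hx a) (hx0 a)
  -- coefficients
  have gam : ∀ a b c d, ∃ g : Pn 5, ∀ i j, w11 (F a b) (F c d) i j = g * θ i j := by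
    intro a b c d
    obtain ⟨g, -, -, hg⟩ := exists_gam h.fol (h.hF a b) (h.hF c d)
    exact ⟨g, hg⟩
  have R1 : ∀ i, x 0 * F 0 3 i + (- x 1) * F 0 2 i + (x 0 * k + x 2 * n) * σ i = 0 := by
    intro i
    have e1 := h.cyc 0 1 2 i
    rw [h.skew 2 0 i, hn1 i] at e1
    linear_combination e1 - x 0 * hk1 i
  have R2 : ∀ i, x 0 * F 1 3 i + (- x 1) * F 0 3 i + (x 3 * n) * σ i = 0 := by
    intro i
    have e1 := h.cyc 0 1 3 i
    rw [h.skew 3 0 i, hn1 i] at e1
    linear_combination e1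
  have R3 : ∀ i, x 0 * F 2 3 i + (- x 2) * F 0 3 i + x 3 * F 0 2 i = 0 := by
    intro i
    have e1 := h.cyc 0 2 3 i
    rw [h.skew 3 0 i] at e1
    linear_combination e1
  have R4 : ∀ i, x 1 * F 2 3 i + (- x 2) * F 1 3 i + x 3 * F 0 3 i + (x 3 * k) * σ i = 0 := by
    intro i
    have e1 := h.cyc 1 2 3 i
    rw [h.skew 3 1 i] at e1
    linear_combination e1 - x 3 * hk1 i
  obtain ⟨p01, hp01⟩ := gam 0 2 0 3
  obtain ⟨p02, hp02⟩ := gam 0 2 1 3
  obtain ⟨p03, hp03⟩ := gam 0 2 2 3
  obtain ⟨p12, hp12⟩ := gam 0 3 1 3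
  obtain ⟨p13, hp13⟩ := gam 0 3 2 3
  obtain ⟨p23, hp23⟩ := gam 1 3 2 3
  have c01 : p01 = - (x 0 * (x 2 * n + k * x 0)) := by
    apply mul_left_cancel₀ (hx0 0)
    apply cancel_th h.fol
    intro i j
    have e1 := hp01 i j
    have e2 := h02 i j
    have r1 := R1 i
    have r2 := R1 j
    unfold w11 at *
    linear_combination (- x 0) * e1 + (x 0 * k + x 2 * n) * (- e2) + F 0 2 i * r2 - F 0 2 j * r1
  have c12 : p12 = - (x 1 * x 3 * n) := by
    apply mul_left_cancel₀ (hx0 0)
    apply cancel_th h.fol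
    intro i j
    have e1 := hp12 i j
    have e2 := h03 i j
    have r1 := R2 i
    have r2 := R2 j
    unfold w11 at *
    linear_combination (- x 0) * e1 + (x 3 * n) * (- e2) + F 0 3 i * r2 - F 0 3 j * r1
  have c02 : p02 = - (n * (x 0 * x 3 + x 1 * x 2) + k * x 0 * x 1) := by
    apply mul_left_cancel₀ (hx0 1)
    apply cancel_th h.fol
    intro i j
    have e1 := hp02 i j
    have e2 := h13 i j
    have e3 := hp12 i j
    rw [c12] at e3
    have r1 := R1 i
    have r2 := R1 j
    unfold w11 at *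
    linear_combination (- x 1) * e1 - (x 0 * k + x 2 * n) * e2 + x 0 * e3 + F 1 3 i * r2 - F 1 3 j * r1
  have c03 : p03 = - (x 2 * (x 2 * n + k * x 0)) := by
    apply mul_left_cancel₀ (hx0 0)
    apply cancel_th h.fol
    intro i j
    have e1 := hp03 i j
    have e3 := hp01 i j
    rw [c01] at e3
    have r1 := R3 i
    have r2 := R3 j
    unfold w11 at *
    linear_combination (- x 0) * e1 + x 2 * e3 + F 0 2 i * r2 - F 0 2 j * r1
  have c13 : p13 = - (x 3 * (x 2 * n + k * x 0)) := by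
    apply mul_left_cancel₀ (hx0 0)
    apply cancel_th h.fol
    intro i j
    have e1 := hp13 i j
    have e3 := hp01 i j
    rw [c01] at e3
    have r1 := R3 i
    have r2 := R3 j
    unfold w11 at *
    linear_combination (- x 0) * e1 + x 3 * e3 + F 0 3 i * r2 - F 0 3 j * r1
  have c23 : p23 = - (x 3 * (x 3 * n + k * x 1)) := by
    apply mul_left_cancel₀ (hx0 1)
    apply cancel_th h.fol
    intro i j
    have e1 := hp23 i j
    have e2 := h13 i j
    have e3 := hp12 i j
    rw [c12] at e3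
    have r1 := R4 i
    have r2 := R4 j
    unfold w11 at *
    linear_combination (- x 1) * e1 - (x 3 * k) * e2 + x 3 * e3 + F 1 3 i * r2 - F 1 3 j * r1
  rw [c01] at hp01
  rw [c02] at hp02
  rw [c03] at hp03
  rw [c12] at hp12
  rw [c13] at hp13
  rw [c23] at hp23
  have sk : ∀ (α β : F1 5) (i j : Fin 5), w11 α β i j = - w11 β α i j := by
    intro α β i j
    unfold w11
    ring
  have dg : ∀ (α : F1 5) (i j : Fin 5), w11 α α i j = 0 := by
    intro α i j
    unfold w11
    ring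
  refine ⟨n, k, hn, hk, hn1, fun i => by linear_combination hk1 i, ?_, ?_, ?_⟩
  · intro I i j
    fin_cases I
    · exact h02 i j
    · exact h03 i j
    · exact h13 i j
    · exact h23 i j
  · intro I J i j
    fin_cases I <;> fin_cases J
    · exact (dg _ i j).trans (zero_mul _).symm
    · exact hp01 i j
    · exact hp02 i j
    · exact hp03 i j
    · show w11 (F 0 3) (F 0 2) i j = (x 0 * (x 2 * n + k * x 0)) * θ i j
      rw [sk, hp01]; ring
    · exact (dg _ i j).trans (zero_mul _).symm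
    · exact hp12 i j
    · exact hp13 i j
    · show w11 (F 1 3) (F 0 2) i j = (n * (x 0 * x 3 + x 1 * x 2) + k * x 0 * x 1) * θ i j
      rw [sk, hp02]; ring
    · show w11 (F 1 3) (F 0 3) i j = (x 1 * x 3 * n) * θ i j
      rw [sk, hp12]; ring
    · exact (dg _ i j).trans (zero_mul _).symm
    · exact hp23 i j
    · show w11 (F 2 3) (F 0 2) i j = (x 2 * (x 2 * n + k * x 0)) * θ i j
      rw [sk, hp03]; ring
    · show w11 (F 2 3) (F 0 3) i j = (x 3 * (x 2 * n + k * x 0)) * θ i j
      rw [sk, hp13]; ring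
    · show w11 (F 2 3) (F 1 3) i j = (x 3 * (x 3 * n + k * x 1)) * θ i j
      rw [sk, hp23]; ring
    · exact (dg _ i j).trans (zero_mul _).symm
  · intro c0 c1 hc
    have hnd : ¬ x 0 ∣ x 1 := by
      rintro ⟨g, hg⟩
      have hg0 : g ≠ 0 := by
        rintro rfl
        exact hx0 1 (by rw [hg, mul_zero])
      have e1 : (x 1).totalDegree = (x 0).totalDegree + g.totalDegree := by
        rw [hg]
        exact totalDegree_mul_of_isDomain (hx0 0) hg0
      rw [(h.hx 1).totalDegree (hx0 1), (h.hx 0).totalDegree (hx0 0)] at e1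
      obtain ⟨r, hr⟩ : ∃ r, g = C r := ⟨_, (totalDegree_eq_zero_iff_eq_C (p := g)).mp (by omega)⟩
      have e2 := Fintype.linearIndependent_iff.mp h.hxi ![r, -1, 0, 0] (by
        rw [Fin.sum_univ_four]
        simp only [Matrix.cons_val_zero, Matrix.cons_val_one, Matrix.cons_val, smul_eq_C_mul, map_neg,
          map_one, map_zero, zero_mul, add_zero]
        rw [hg, hr]
        ring) 1
      simp at e2
    have hdv : ∀ i, ∃ g, F 0 2 i - x 2 * C c1 * σ i = x 0 * g := by
      intro i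
      have e1 : x 0 ∣ x 1 * (F 0 2 i - x 2 * C c1 * σ i) := by
        refine ⟨F 1 2 i + x 2 * C c0 * σ i, ?_⟩
        have e2 := h.cyc 0 1 2 i
        rw [h.skew 2 0 i, hn1 i, hc] at e2
        linear_combination - e2
      exact ((hp 0).dvd_or_dvd e1).resolve_left hnd
    choose G hG using hdv
    have hGm : G ∈ EE θ 2 := by
      refine ⟨fun i => ?_, fun i j l => ?_⟩
      · refine hom_right (d := 1) ?_ (h.hx 0) (hx0 0)
        rw [← hG i]
        refine ((h.hF 0 2).1 i).sub ?_
        have := ((h.hx 2).mul (isHomogeneous_C (Fin 5) c1)).mul (h.hσ.1 i)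
        simpa using this
      · have e1 := (h.hF 0 2).2 i j l
        have e2 := h.hσ.2 i j l
        have e3 : x 0 * w12 G θ i j l = 0 := by
          unfold w12 at e1 e2 ⊢
          linear_combination e1 - x 2 * C c1 * e2 - θ j l * hG i - θ l i * hG j - θ i j * hG l
        exact (mul_eq_zero.mp e3).resolve_left (hx0 0)
    have hGs : ∀ i j, w11 G σ i j = x 0 * θ i j := by
      intro i j
      apply mul_left_cancel₀ (hx0 0)
      have e1 := h02 i j
      unfold w11 at e1 ⊢
      linear_combination e1 - σ j * hG i + σ i * hG j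
    obtain ⟨c, hcG⟩ : ∃ c : ℂ, c • σ = G := by
      have e1 := (finrank_eq_one_iff_of_nonzero' (⟨σ, h.hσ⟩ : EE θ 2) (by
        intro e
        exact h.hσ0 (congrArg Subtype.val e))).mp h.e2 ⟨G, hGm⟩
      obtain ⟨c, hc⟩ := e1
      exact ⟨c, congrArg Subtype.val hc⟩
    obtain ⟨i, j, hij⟩ := exists_ne h.fol
    have e1 := hGs i j
    rw [← hcG] at e1
    have e2 : w11 (c • σ) σ i j = 0 := by
      unfold w11
      simp only [Pi.smul_apply, smul_eq_C_mul]
      ring
    rw [e2] at e1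
    exact mul_ne_zero (hx0 0) hij e1.symm

end Pool.Agent.Helper28.XE
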